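import Pool.Agent.J4H96.OC.Glue

/-!
# Orientable five cycle double covers: independence number six, dominating sets (MP_781dd6_co)

Two vertices are called close if they are joined by an edge or by two different paths with two edges.
A finite multigraph without cut edges has an orientable cycle double cover with five classes if
(a) any seven different vertices, none of them isolated, include two which are close (for example, if
the independence number is at most six), or
(b) it has a dominating set `D` such that every vertex of `D` is close to all but at most two of the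
other vertices of `D` (for example, if the domination number is at most three, or if there is a
dominating clique).
The order, the degrees and the small cuts are arbitrary. More generally it suffices that (a) or (b)
holds after the identification of some vertices which are joined by edges of a chain of circuits or
ears with at most four new edges and of doubly connected pieces, and that this holds for the pieces
without nowhere-zero 4-flow of a decomposition of the graph along edge cuts with at most three edges.

Proof. By the theorems `R545.PC.seven'` and `N399.DM.Cl.flow` of the starting library (which were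
used there for maps to the Petersen graph and other conclusions, but not for oriented covers) a graph
of this class has a nowhere-zero flow over the group of order four, or ten classes of vertices form a
Petersen graph. The flows are lifted through the chain (`N410/DC`, `J4H96/OC/Ctr.lean`), the
condition is inherited by quotients, and the oriented covers of the ten smaller graphs in which the
vertices outside of one class are identified are glued with the theorem `sgn_class` of the starting
library (`R890/FF/Sgn.lean`). The covers of the two sides of an edge cut with at most three edges are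
glued with `J4H96/OC/Glue.lean`.
-/

set_option autoImplicit false

namespace Pool.Agent.Results.MP_781dd6_co.CloseVertices

open Finset Pool.Agent.H160R2.HF Pool.Agent.H23.PS

/-- The edges with exactly one end in `X`. -/
def boundary {V E : Type} [DecidableEq V] [Fintype E] (K : OrGraph V E) (X : Finset V) : Finset E :=
  univ.filter (fun e => ¬ (K.t e ∈ X ↔ K.h e ∈ X))

/-- The union of the sets `C j` with `j < i`. -/
def earlier {E : Type} [DecidableEq E] {m : ℕ} (C : Fin m → Finset E) (i : Fin m) : Finset E :=
  (univ.filter (fun j => j < i)).biUnion C

/-- `H` can be added to the chain after `F`: either (short) `H` has at most four edges outside `F`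
and no bridge modulo `F`: no set `Y` of vertices without boundary edges in `F` has exactly one
boundary edge in `H`; or (doubly connected) `H` contains two disjoint sets each of which connects,
modulo `F`, whatever `H` connects: every set `Y` of vertices without boundary edges in `F` and with
a boundary edge in `H` has boundary edges in both sets. -/
def Adds {V E : Type} [DecidableEq V] [Fintype E] [DecidableEq E] (K : OrGraph V E)
    (F H : Finset E) : Prop :=
  ((H \ F).card ≤ 4 ∧ ∀ Y : Finset V, Disjoint (boundary K Y) F →
    (boundary K Y ∩ H).card ≠ 1) ∨
  ∃ T₁ T₂ : Finset E, T₁ ⊆ H ∧ T₂ ⊆ H ∧ Disjoint T₁ T₂ ∧ ∀ Y : Finset V,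
    Disjoint (boundary K Y) F → ¬ Disjoint (boundary K Y) H →
      ¬ Disjoint (boundary K Y) T₁ ∧ ¬ Disjoint (boundary K Y) T₂

/-- In the multigraph with the ends `s e` and `t e` of the edges `e`, the edge `e` joins the vertices
`x` and `y`. -/
def Joins {V E : Type} (s t : E → V) (e : E) (x y : V) : Prop :=
  (s e = x ∧ t e = y) ∨ (s e = y ∧ t e = x)

/-- The vertices `x` and `y` are joined by an edge, or by two different paths with two edges (for
example, they have two common neighbours). -/
def Close {V E : Type} (s t : E → V) (x y : V) : Prop :=
  (∃ e, Joins s t e x y) ∨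
    ∃ (e f e' f' : E) (a b : V), (e ≠ e' ∨ f ≠ f') ∧ Joins s t e x a ∧ Joins s t f a y ∧
      Joins s t e' x b ∧ Joins s t f' b y

/-- (a) Any seven different vertices, each of which is an end of an edge, include two which are
close. -/
def Seven {V E : Type} (s t : E → V) : Prop :=
  ∀ x : Fin 7 → V, Function.Injective x → (∀ i, ∃ e, s e = x i ∨ t e = x i) →
    ∃ i j, i ≠ j ∧ Close s t (x i) (x j)

/-- (b) For some set `D` of vertices, every vertex outside of `D` which has a neighbour (other than
itself) is close to a vertex of `D`, and every vertex `d` of `D` is close to all but at most two of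
the other vertices of `D`. -/
def Dominated {V E : Type} (s t : E → V) : Prop :=
  ∃ D : Finset V, (∀ x, x ∉ D → (∃ e, s e ≠ t e ∧ (s e = x ∨ t e = x)) → ∃ d ∈ D, Close s t x d) ∧
    ∀ d ∈ D, ∀ W : Finset V, W ⊆ D → (∀ c ∈ W, c ≠ d ∧ ¬ Close s t d c) → W.card ≤ 2

/-- There are a chain of sets of edges (for instance the empty chain) and a map `ρ` which identifies
only vertices joined by edges of the chain (that is, not separated by a set of vertices without
boundary edges in the chain; for instance the identity) such that (a) or (b) holds after the
identification of the vertices with the same value of `ρ`. -/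
def CloseAfterContraction {V E : Type} [DecidableEq V] [Fintype E] [DecidableEq E]
    (K : OrGraph V E) : Prop :=
  ∃ (m : ℕ) (C : Fin m → Finset E) (ρ : V → V), (∀ i, Adds K (earlier C i) (C i)) ∧
    (∀ u v, ρ u = ρ v → ∀ Y : Finset V, Disjoint (boundary K Y) (univ.biUnion C) →
      (u ∈ Y ↔ v ∈ Y)) ∧
    (Seven (fun e => ρ (K.t e)) (fun e => ρ (K.h e)) ∨
      Dominated (fun e => ρ (K.t e)) (fun e => ρ (K.h e)))

/-- The graph in which all vertices outside of `X` are identified with the vertex `a`. -/
def outside {V E : Type} [DecidableEq V] (K : OrGraph V E) (X : Finset V) (a : V) :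
    OrGraph V E where
  t e := if K.t e ∈ X then K.t e else a
  h e := if K.h e ∈ X then K.h e else a

/-- `K` can be decomposed along edge cuts with at most three edges into graphs with the property
`P`: it has the property `P`, or for some set `X` of vertices with at most three boundary edges, the
graph in which all vertices outside of `X` are identified with one of them and the graph in which all
vertices of `X` are identified with one of them can be decomposed. -/
inductive Decomposes {V E : Type} [Fintype V] [DecidableEq V] [Fintype E]
    (P : OrGraph V E → Prop) : OrGraph V E → Prop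
  | piece (K : OrGraph V E) : P K → Decomposes P K
  | sides (K : OrGraph V E) (X : Finset V) (a b : V) : a ∉ X → b ∈ X → (boundary K X).card ≤ 3 →
      Decomposes P (outside K X a) → Decomposes P (outside K Xᶜ b) → Decomposes P K

/-- All edges are covered by two even subgraphs (equivalently, there is a nowhere-zero 4-flow). -/
def TwoEven {V E : Type} [DecidableEq V] [Fintype E] [DecidableEq E] (K : OrGraph V E) : Prop :=
  ∃ F₁ F₂ : Finset E, (∀ v, Even (K.deg F₁ v)) ∧ (∀ v, Even (K.deg F₂ v)) ∧ F₁ ∪ F₂ = univ

open scoped Classical in
/-- how often the closed walks of the list `C` traverse the arc from `u` to `v` -/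
noncomputable def uses {V : Type} {S : SimpleGraph V} (C : List (Σ v : V, S.Walk v v)) (u v : V) :
    ℕ :=
  (C.map (fun c => (c.2.darts.filter (fun d => decide (d.toProd = (u, v)))).length)).sum

/-- The associated digraph of `S` decomposes into directed cycles of length at least three, in five
families none of which uses an edge twice. -/
def FiveFamilies {V : Type} (S : SimpleGraph V) : Prop :=
  ∃ C : Fin 5 → List (Σ v : V, S.Walk v v), (∀ i, ∀ c ∈ C i, c.2.IsCycle) ∧
    (∀ i u v, uses (C i) u v + uses (C i) v u ≤ 1) ∧
    ∀ u v, S.Adj u v → ∑ i, uses (C i) u v = 1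

/-- (1) Every bridgeless multigraph `K` (with an orientation) which can be decomposed along edge cuts
with at most three edges into graphs covered by two even subgraphs and graphs satisfying the
condition `CloseAfterContraction` has an orientable cycle double cover with five classes,
and if it is an orientation of a simple graph `S`, the associated digraph of `S` decomposes into
directed cycles of length at least three, in five families none of which uses an edge twice.
(2) In particular this holds for every finite simple graph without cut edges in which any seven
different vertices include two which are adjacent or have two common neighbours, and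
(3) for every finite simple graph without cut edges with a dominating set `D` such that every vertex
of `D` is neither adjacent to nor has two common neighbours with at most two other vertices of
`D`. -/
theorem result :
    (∀ (V E : Type) [Fintype V] [DecidableEq V] [Fintype E] [DecidableEq E] (K : OrGraph V E),
      K.Bridgeless → Decomposes (fun K => TwoEven K ∨ CloseAfterContraction K) K →
      FiveClasses K ∧ ∀ S : SimpleGraph V, IsOrientation S K → FiveFamilies S) ∧
    (∀ (V : Type) [Fintype V] (G : SimpleGraph V),
      (∀ u v : V, G.Adj u v → (G.deleteEdges {s(u, v)}).Reachable u v) →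
      (∀ x : Fin 7 → V, Function.Injective x → ∃ i j, i ≠ j ∧ (G.Adj (x i) (x j) ∨
        ∃ a b, a ≠ b ∧ G.Adj (x i) a ∧ G.Adj a (x j) ∧ G.Adj (x i) b ∧ G.Adj b (x j))) →
      FiveFamilies G) ∧
    (∀ (V : Type) [Fintype V] (G : SimpleGraph V),
      (∀ u v : V, G.Adj u v → (G.deleteEdges {s(u, v)}).Reachable u v) →
      ∀ D : Finset V, (∀ x, x ∉ D → ∃ d ∈ D, G.Adj x d) →
      (∀ d ∈ D, ∀ W : Finset V, W ⊆ D → (∀ c ∈ W, c ≠ d ∧ ¬ G.Adj d c ∧
        ¬ ∃ a b, a ≠ b ∧ G.Adj d a ∧ G.Adj a c ∧ G.Adj d b ∧ G.Adj b c) → W.card ≤ 2) →
      FiveFamilies G) := by
  have main : ∀ (V E : Type) [Fintype V] [DecidableEq V] [Fintype E] [DecidableEq E]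
      (K : OrGraph V E), Decomposes (fun K => TwoEven K ∨ CloseAfterContraction K) K →
      TH362.TF.N1 K.t K.h univ →
      ∃ f : E → Fin 5 → ℤ, (∀ e, R890.FF.IsU (f e)) ∧ ∀ v, R890.FF.net K.t K.h f v = 0 := by
    intro V E _ _ _ _ K h
    induction h with
    | piece K h =>
      intro hN
      rcases h with ⟨F₁, F₂, h₁, h₂, h₃⟩ | h
      · exact (R890.FF.classes_iff K.t K.h).2 (fiveClasses_of_cover K F₁ F₂ h₁ h₂ h₃)
      obtain ⟨m, C, ρ, hC, hρ, hM⟩ := h
      exact J4H96.OC.fl_gen (J4H96.OC.inh_ctr J4H96.OC.sd_flow) hN
        (N410.DC.GCl.of_steps hC (J4H96.OC.ctr_of J4H96.OC.sd_map ρ hρ hM))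
    | sides K X a b ha hb hc _ _ ih1 ih2 =>
      intro hN
      exact J4H96.OC.fl_glue hN X a b ha hb hc
        (ih1 (J4H96.OC.n1_map hN (fun v => if v ∈ X then v else a)))
        (ih2 (J4H96.OC.n1_map hN (fun v => if v ∈ Xᶜ then v else b)))
  have key : ∀ (V E : Type) [Fintype V] [DecidableEq V] [Fintype E] [DecidableEq E]
      (K : OrGraph V E), K.Bridgeless → Decomposes (fun K => TwoEven K ∨ CloseAfterContraction K) K →
      FiveClasses K := by
    intro V E _ _ _ _ K hB h
    exact (R890.FF.classes_iff K.t K.h).1 (main V E K h (R890.FF.n1_of_bridgeless K hB))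
  have jn : ∀ (V : Type) [Fintype V] (G : SimpleGraph V) (x y : V), G.Adj x y →
      ∃ e, Joins (R890.FF.orient G).t (R890.FF.orient G).h e x y := by
    classical
    intro V _ G x y h
    obtain ⟨e, he, -⟩ := (R890.FF.orient_is G).2 x y h
    exact ⟨e, he.imp id (fun h => ⟨h.2, h.1⟩)⟩
  have two : ∀ (V : Type) [Fintype V] (G : SimpleGraph V) (x y : V), (G.Adj x y ∨
      ∃ a b, a ≠ b ∧ G.Adj x a ∧ G.Adj a y ∧ G.Adj x b ∧ G.Adj b y) →
      Close (R890.FF.orient G).t (R890.FF.orient G).h x y := by
    intro V _ G x y h
    rcases h with h | ⟨a, b, hab, h1, h2, h3, h4⟩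
    · exact Or.inl (jn V G x y h)
    · obtain ⟨e, he⟩ := jn V G x a h1
      obtain ⟨f, hf⟩ := jn V G a y h2
      obtain ⟨e', he'⟩ := jn V G x b h3
      obtain ⟨f', hf'⟩ := jn V G b y h4
      refine Or.inr ⟨e, f, e', f', a, b, Or.inl fun hee => ?_, he, hf, he', hf'⟩
      rw [hee] at he
      have hxa : x ≠ a := h1.ne
      have hxb : x ≠ b := h3.ne
      rcases he with ⟨p, q⟩ | ⟨p, q⟩ <;> rcases he' with ⟨p', q'⟩ | ⟨p', q'⟩
      · exact hab (q.symm.trans q')
      · exact hxb (p.symm.trans p')
      · exact hxa (p'.symm.trans p)
      · exact hab (p.symm.trans p')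
  refine ⟨fun V E _ _ _ _ K hB h => ⟨key V E K hB h, fun S hS =>
    cycles_of_classes S K hS (key V E K hB h)⟩, ?_, ?_⟩
  · classical
    intro V _ G hG h7
    have hs : CloseAfterContraction (R890.FF.orient G) := by
      refine ⟨0, fun i => i.elim0, id, fun i => i.elim0, fun u v huv Y _ => by
        rw [show u = v from huv], Or.inl fun x hx _ => ?_⟩
      obtain ⟨i, j, hij, h⟩ := h7 x hx
      exact ⟨i, j, hij, two V G _ _ h⟩
    exact cycles_of_classes G (R890.FF.orient G) (R890.FF.orient_is G)
      (key _ _ (R890.FF.orient G) (R890.FF.orient_bridgeless G hG) (.piece _ (Or.inr hs)))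
  · classical
    intro V _ G hG D h1 h2
    have hs : CloseAfterContraction (R890.FF.orient G) := by
      refine ⟨0, fun i => i.elim0, id, fun i => i.elim0, fun u v huv Y _ => by
        rw [show u = v from huv], Or.inr ⟨D, fun x hx _ => ?_, fun d hd W hW hc => ?_⟩⟩
      · obtain ⟨d, hd, h⟩ := h1 x hx
        exact ⟨d, hd, Or.inl (jn V G x d h)⟩
      · refine h2 d hd W hW fun c hcW => ⟨(hc c hcW).1, fun h => (hc c hcW).2 ?_, fun h =>
          (hc c hcW).2 ?_⟩
        · exact two V G d c (Or.inl h)
        · exact two V G d c (Or.inr h)
    exact cycles_of_classes G (R890.FF.orient G) (R890.FF.orient_is G)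
      (key _ _ (R890.FF.orient G) (R890.FF.orient_bridgeless G hG) (.piece _ (Or.inr hs)))

end Pool.Agent.Results.MP_781dd6_co.CloseVertices
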