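import Pool.Agent.N410.DC.Far
import Pool.Agent.J4H96.OC.Glue

/-!
# Orientable five cycle double covers: five sets with three boundary edges (MP_781dd6_co)

Let `G` be a finite multigraph without cut edges such that among any five pairwise disjoint sets of
vertices with exactly three boundary edges two are joined by an edge, or by two different paths with
two edges. Then `G` has an orientable cycle double cover with five classes.

For example, this holds if all edge cuts with three edges isolate a vertex and the vertices of
degree three have independence number at most four. There is no condition on the order, and the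
number of the edge cuts with three edges is not bounded. More generally the condition is only needed
for sets without boundary edges in the union `F` of a chain of circuits or ears with at most four
new edges and of doubly connected pieces, and it is only needed for the pieces without nowhere-zero
4-flow of a decomposition of `G` along edge cuts with at most three edges.

Proof. By the theorem `N410.DC.far5_flow` of the starting library (which was used there for maps to
the Petersen graph, six even subgraphs and other conclusions, but not for oriented covers) a graph of
this class has a nowhere-zero flow over the group of order four, or ten classes of vertices form a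
Petersen graph. The condition is inherited by quotients, and the oriented covers of the ten smaller
graphs in which the vertices outside of one class are identified are glued with the theorem
`sgn_class` of the starting library (`R890/FF/Sgn.lean`). The covers of the two sides of an edge cut
with at most three edges are glued with `J4H96/OC/Glue.lean`.
-/

set_option autoImplicit false

namespace Pool.Agent.Results.MP_781dd6_co.FarThreeCuts

open Finset Pool.Agent.H160R2.HF Pool.Agent.H23.PS

/-- The edges with exactly one end in `X`. -/
def boundary {V E : Type} [DecidableEq V] [Fintype E] (K : OrGraph V E) (X : Finset V) : Finset E :=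
  univ.filter (fun e => ¬ (K.t e ∈ X ↔ K.h e ∈ X))

/-- The union of the sets `C j` with `j < i`. -/
def earlier {E : Type} [DecidableEq E] {m : ℕ} (C : Fin m → Finset E) (i : Fin m) : Finset E :=
  (univ.filter (fun j => j < i)).biUnion C

/-- `H` can be added to the chain after `F`: either (short) `H` has at most four edges outside `F`
and no bridge modulo `F`: no set `Y` of vertices without boundary edges in `F` has exactly one
boundary edge in `H`; or (doubly connected) `H` contains two disjoint sets each of which connects,
modulo `F`, whatever `H` connects: every set `Y` of vertices without boundary edges in `F` and with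
a boundary edge in `H` has boundary edges in both sets. -/
def Adds {V E : Type} [DecidableEq V] [Fintype E] [DecidableEq E] (K : OrGraph V E)
    (F H : Finset E) : Prop :=
  ((H \ F).card ≤ 4 ∧ ∀ Y : Finset V, Disjoint (boundary K Y) F →
    (boundary K Y ∩ H).card ≠ 1) ∨
  ∃ T₁ T₂ : Finset E, T₁ ⊆ H ∧ T₂ ⊆ H ∧ Disjoint T₁ T₂ ∧ ∀ Y : Finset V,
    Disjoint (boundary K Y) F → ¬ Disjoint (boundary K Y) H →
      ¬ Disjoint (boundary K Y) T₁ ∧ ¬ Disjoint (boundary K Y) T₂

/-- The edge `e` joins the set `X` and the vertex `a`. -/
def Joins {V E : Type} (K : OrGraph V E) (X : Finset V) (a : V) (e : E) : Prop :=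
  (K.t e ∈ X ∧ K.h e = a) ∨ (K.t e = a ∧ K.h e ∈ X)

/-- The sets `X` and `Y` are joined by an edge, or by two different paths with two edges. -/
def Close {V E : Type} (K : OrGraph V E) (X Y : Finset V) : Prop :=
  (∃ e, (K.t e ∈ X ∧ K.h e ∈ Y) ∨ (K.t e ∈ Y ∧ K.h e ∈ X)) ∨
    ∃ (e f e' f' : E) (a b : V), (e ≠ e' ∨ f ≠ f') ∧ Joins K X a e ∧ Joins K Y a f ∧
      Joins K X b e' ∧ Joins K Y b f'

/-- For some chain of sets of edges (for instance the empty chain) among any five pairwise disjoint
sets of vertices with exactly three boundary edges, none of them in the chain, two are close. -/
def NeverFar {V E : Type} [DecidableEq V] [Fintype E] [DecidableEq E] (K : OrGraph V E) : Prop :=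
  ∃ (m : ℕ) (C : Fin m → Finset E), (∀ i, Adds K (earlier C i) (C i)) ∧
    ∀ X : Fin 5 → Finset V, (∀ i j, i ≠ j → Disjoint (X i) (X j)) →
      (∀ i, Disjoint (boundary K (X i)) (univ.biUnion C)) → (∀ i, (boundary K (X i)).card = 3) →
      ∃ i j, i ≠ j ∧ Close K (X i) (X j)

/-- The graph in which all vertices outside of `X` are identified with the vertex `a`. -/
def outside {V E : Type} [DecidableEq V] (K : OrGraph V E) (X : Finset V) (a : V) :
    OrGraph V E where
  t e := if K.t e ∈ X then K.t e else a
  h e := if K.h e ∈ X then K.h e else a

/-- `K` can be decomposed along edge cuts with at most three edges into graphs with the property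
`P`: it has the property `P`, or for some set `X` of vertices with at most three boundary edges, the
graph in which all vertices outside of `X` are identified with one of them and the graph in which all
vertices of `X` are identified with one of them can be decomposed. -/
inductive Decomposes {V E : Type} [Fintype V] [DecidableEq V] [Fintype E]
    (P : OrGraph V E → Prop) : OrGraph V E → Prop
  | piece (K : OrGraph V E) : P K → Decomposes P K
  | sides (K : OrGraph V E) (X : Finset V) (a b : V) : a ∉ X → b ∈ X → (boundary K X).card ≤ 3 →
      Decomposes P (outside K X a) → Decomposes P (outside K Xᶜ b) → Decomposes P K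

/-- All edges are covered by two even subgraphs (equivalently, there is a nowhere-zero 4-flow). -/
def TwoEven {V E : Type} [DecidableEq V] [Fintype E] [DecidableEq E] (K : OrGraph V E) : Prop :=
  ∃ F₁ F₂ : Finset E, (∀ v, Even (K.deg F₁ v)) ∧ (∀ v, Even (K.deg F₂ v)) ∧ F₁ ∪ F₂ = univ

open scoped Classical in
/-- how often the closed walks of the list `C` traverse the arc from `u` to `v` -/
noncomputable def uses {V : Type} {S : SimpleGraph V} (C : List (Σ v : V, S.Walk v v)) (u v : V) :
    ℕ :=
  (C.map (fun c => (c.2.darts.filter (fun d => decide (d.toProd = (u, v)))).length)).sum

/-- The associated digraph of `S` decomposes into directed cycles of length at least three, in five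
families none of which uses an edge twice. -/
def FiveFamilies {V : Type} (S : SimpleGraph V) : Prop :=
  ∃ C : Fin 5 → List (Σ v : V, S.Walk v v), (∀ i, ∀ c ∈ C i, c.2.IsCycle) ∧
    (∀ i u v, uses (C i) u v + uses (C i) v u ≤ 1) ∧
    ∀ u v, S.Adj u v → ∑ i, uses (C i) u v = 1

/-- Every bridgeless multigraph `K` (with an orientation) which can be decomposed along edge cuts
with at most three edges into graphs covered by two even subgraphs and graphs satisfying the
condition `NeverFar` has an orientable cycle double cover with five classes,
and if it is an orientation of a simple graph `S`, the associated digraph of `S` decomposes into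
directed cycles of length at least three, in five families none of which uses an edge twice. -/
theorem result (V E : Type) [Fintype V] [DecidableEq V] [Fintype E] [DecidableEq E]
    (K : OrGraph V E) (hB : K.Bridgeless) (h : Decomposes (fun K => TwoEven K ∨ NeverFar K) K) :
    FiveClasses K ∧ ∀ S : SimpleGraph V, IsOrientation S K → FiveFamilies S := by
  have main : ∀ (V E : Type) [Fintype V] [DecidableEq V] [Fintype E] [DecidableEq E]
      (K : OrGraph V E), Decomposes (fun K => TwoEven K ∨ NeverFar K) K →
      TH362.TF.N1 K.t K.h univ →
      ∃ f : E → Fin 5 → ℤ, (∀ e, R890.FF.IsU (f e)) ∧ ∀ v, R890.FF.net K.t K.h f v = 0 := by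
    intro V E _ _ _ _ K h
    induction h with
    | piece K h =>
      intro hN
      rcases h with ⟨F₁, F₂, h₁, h₂, h₃⟩ | h
      · exact (R890.FF.classes_iff K.t K.h).2 (fiveClasses_of_cover K F₁ F₂ h₁ h₂ h₃)
      obtain ⟨m, C, hC, hO⟩ := h
      exact J4H96.OC.fl_gen N410.DC.inh_far5 hN (N410.DC.GCl.of_steps hC hO)
    | sides K X a b ha hb hc _ _ ih1 ih2 =>
      intro hN
      exact J4H96.OC.fl_glue hN X a b ha hb hc
        (ih1 (J4H96.OC.n1_map hN (fun v => if v ∈ X then v else a)))
        (ih2 (J4H96.OC.n1_map hN (fun v => if v ∈ Xᶜ then v else b)))
  have h1 : FiveClasses K := (R890.FF.classes_iff K.t K.h).1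
    (main V E K h (R890.FF.n1_of_bridgeless K hB))
  exact ⟨h1, fun S hS => cycles_of_classes S K hS h1⟩

end Pool.Agent.Results.MP_781dd6_co.FarThreeCuts
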