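import Pool.Agent.J4H96.OC.Glue

/-!
# Orientable five cycle double covers: matching number at most eight (MP_781dd6_co)

Every finite multigraph without cut edges in which every matching has at most eight edges has an
orientable cycle double cover with five classes. The order, the degrees and the small cuts are
arbitrary. More generally it suffices that all matchings have at most eight edges after the
identification of some vertices which are joined by edges of a chain of circuits or ears with at
most four new edges and of doubly connected pieces, and that this holds for the pieces without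
nowhere-zero 4-flow of a decomposition of the graph along edge cuts with at most three edges.

Proof. By the theorem `R769.MN.match8` of the starting library (which was used there for maps to the
Petersen graph and other conclusions, but not for oriented covers) a graph of this class has a
nowhere-zero flow over the group of order four, or ten classes of vertices form a Petersen graph.
The flows are lifted through the chain (`N410/DC`, `J4H96/OC/Ctr.lean`), the condition is inherited
by quotients, and the oriented covers of the ten smaller graphs in which the vertices outside of one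
class are identified are glued with the theorem `sgn_class` of the starting library
(`R890/FF/Sgn.lean`). The covers of the two sides of an edge cut with at most three edges are glued
with `J4H96/OC/Glue.lean`.
-/

set_option autoImplicit false

namespace Pool.Agent.Results.MP_781dd6_co.MatchingNumberEight

open Finset Pool.Agent.H160R2.HF Pool.Agent.H23.PS

/-- The edges with exactly one end in `X`. -/
def boundary {V E : Type} [DecidableEq V] [Fintype E] (K : OrGraph V E) (X : Finset V) : Finset E :=
  univ.filter (fun e => ¬ (K.t e ∈ X ↔ K.h e ∈ X))

/-- The union of the sets `C j` with `j < i`. -/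
def earlier {E : Type} [DecidableEq E] {m : ℕ} (C : Fin m → Finset E) (i : Fin m) : Finset E :=
  (univ.filter (fun j => j < i)).biUnion C

/-- `H` can be added to the chain after `F`: either (short) `H` has at most four edges outside `F`
and no bridge modulo `F`: no set `Y` of vertices without boundary edges in `F` has exactly one
boundary edge in `H`; or (doubly connected) `H` contains two disjoint sets each of which connects,
modulo `F`, whatever `H` connects: every set `Y` of vertices without boundary edges in `F` and with
a boundary edge in `H` has boundary edges in both sets. -/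
def Adds {V E : Type} [DecidableEq V] [Fintype E] [DecidableEq E] (K : OrGraph V E)
    (F H : Finset E) : Prop :=
  ((H \ F).card ≤ 4 ∧ ∀ Y : Finset V, Disjoint (boundary K Y) F →
    (boundary K Y ∩ H).card ≠ 1) ∨
  ∃ T₁ T₂ : Finset E, T₁ ⊆ H ∧ T₂ ⊆ H ∧ Disjoint T₁ T₂ ∧ ∀ Y : Finset V,
    Disjoint (boundary K Y) F → ¬ Disjoint (boundary K Y) H →
      ¬ Disjoint (boundary K Y) T₁ ∧ ¬ Disjoint (boundary K Y) T₂

/-- `M` is a matching of the multigraph with the ends `s e` and `t e` of the edges `e`: its edges are
not loops and no two of them have a common end. -/
def IsMatching {V E : Type} (s t : E → V) (M : Finset E) : Prop :=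
  (∀ e ∈ M, s e ≠ t e) ∧ ∀ e ∈ M, ∀ e' ∈ M, e ≠ e' →
    s e ≠ s e' ∧ s e ≠ t e' ∧ t e ≠ s e' ∧ t e ≠ t e'

/-- There are a chain of sets of edges (for instance the empty chain) and a map `ρ` which identifies
only vertices joined by edges of the chain (that is, not separated by a set of vertices without
boundary edges in the chain; for instance the identity) such that, after the identification of the
vertices with the same value of `ρ`, every matching has at most eight edges. -/
def SmallMatchings {V E : Type} [DecidableEq V] [Fintype E] [DecidableEq E] (K : OrGraph V E) :
    Prop :=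
  ∃ (m : ℕ) (C : Fin m → Finset E) (ρ : V → V), (∀ i, Adds K (earlier C i) (C i)) ∧
    (∀ u v, ρ u = ρ v → ∀ Y : Finset V, Disjoint (boundary K Y) (univ.biUnion C) →
      (u ∈ Y ↔ v ∈ Y)) ∧
    ∀ M : Finset E, IsMatching (fun e => ρ (K.t e)) (fun e => ρ (K.h e)) M → M.card ≤ 8

/-- The graph in which all vertices outside of `X` are identified with the vertex `a`. -/
def outside {V E : Type} [DecidableEq V] (K : OrGraph V E) (X : Finset V) (a : V) :
    OrGraph V E where
  t e := if K.t e ∈ X then K.t e else a
  h e := if K.h e ∈ X then K.h e else a

/-- `K` can be decomposed along edge cuts with at most three edges into graphs with the property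
`P`: it has the property `P`, or for some set `X` of vertices with at most three boundary edges, the
graph in which all vertices outside of `X` are identified with one of them and the graph in which all
vertices of `X` are identified with one of them can be decomposed. -/
inductive Decomposes {V E : Type} [Fintype V] [DecidableEq V] [Fintype E]
    (P : OrGraph V E → Prop) : OrGraph V E → Prop
  | piece (K : OrGraph V E) : P K → Decomposes P K
  | sides (K : OrGraph V E) (X : Finset V) (a b : V) : a ∉ X → b ∈ X → (boundary K X).card ≤ 3 →
      Decomposes P (outside K X a) → Decomposes P (outside K Xᶜ b) → Decomposes P K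

/-- All edges are covered by two even subgraphs (equivalently, there is a nowhere-zero 4-flow). -/
def TwoEven {V E : Type} [DecidableEq V] [Fintype E] [DecidableEq E] (K : OrGraph V E) : Prop :=
  ∃ F₁ F₂ : Finset E, (∀ v, Even (K.deg F₁ v)) ∧ (∀ v, Even (K.deg F₂ v)) ∧ F₁ ∪ F₂ = univ

open scoped Classical in
/-- how often the closed walks of the list `C` traverse the arc from `u` to `v` -/
noncomputable def uses {V : Type} {S : SimpleGraph V} (C : List (Σ v : V, S.Walk v v)) (u v : V) :
    ℕ :=
  (C.map (fun c => (c.2.darts.filter (fun d => decide (d.toProd = (u, v)))).length)).sum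

/-- The associated digraph of `S` decomposes into directed cycles of length at least three, in five
families none of which uses an edge twice. -/
def FiveFamilies {V : Type} (S : SimpleGraph V) : Prop :=
  ∃ C : Fin 5 → List (Σ v : V, S.Walk v v), (∀ i, ∀ c ∈ C i, c.2.IsCycle) ∧
    (∀ i u v, uses (C i) u v + uses (C i) v u ≤ 1) ∧
    ∀ u v, S.Adj u v → ∑ i, uses (C i) u v = 1

/-- (1) Every bridgeless multigraph `K` (with an orientation) which can be decomposed along edge cuts
with at most three edges into graphs covered by two even subgraphs and graphs satisfying the
condition `SmallMatchings` has an orientable cycle double cover with five classes,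
and if it is an orientation of a simple graph `S`, the associated digraph of `S` decomposes into
directed cycles of length at least three, in five families none of which uses an edge twice.
(2) In particular this holds for every finite simple graph without cut edges with no nine disjoint
edges. -/
theorem result :
    (∀ (V E : Type) [Fintype V] [DecidableEq V] [Fintype E] [DecidableEq E] (K : OrGraph V E),
      K.Bridgeless → Decomposes (fun K => TwoEven K ∨ SmallMatchings K) K →
      FiveClasses K ∧ ∀ S : SimpleGraph V, IsOrientation S K → FiveFamilies S) ∧
    (∀ (V : Type) [Fintype V] (G : SimpleGraph V),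
      (∀ u v : V, G.Adj u v → (G.deleteEdges {s(u, v)}).Reachable u v) →
      (∀ x y : Fin 9 → V, (∀ i, G.Adj (x i) (y i)) →
        ∃ i j, i ≠ j ∧ (x i = x j ∨ x i = y j ∨ y i = y j)) → FiveFamilies G) := by
  have main : ∀ (V E : Type) [Fintype V] [DecidableEq V] [Fintype E] [DecidableEq E]
      (K : OrGraph V E), Decomposes (fun K => TwoEven K ∨ SmallMatchings K) K →
      TH362.TF.N1 K.t K.h univ →
      ∃ f : E → Fin 5 → ℤ, (∀ e, R890.FF.IsU (f e)) ∧ ∀ v, R890.FF.net K.t K.h f v = 0 := by
    intro V E _ _ _ _ K h
    induction h with
    | piece K h =>
      intro hN
      rcases h with ⟨F₁, F₂, h₁, h₂, h₃⟩ | h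
      · exact (R890.FF.classes_iff K.t K.h).2 (fiveClasses_of_cover K F₁ F₂ h₁ h₂ h₃)
      obtain ⟨m, C, ρ, hC, hρ, hM⟩ := h
      exact J4H96.OC.fl_gen (J4H96.OC.inh_ctr J4H96.OC.mat8_flow) hN
        (N410.DC.GCl.of_steps hC (J4H96.OC.ctr_of J4H96.OC.mat8_map ρ hρ hM))
    | sides K X a b ha hb hc _ _ ih1 ih2 =>
      intro hN
      exact J4H96.OC.fl_glue hN X a b ha hb hc
        (ih1 (J4H96.OC.n1_map hN (fun v => if v ∈ X then v else a)))
        (ih2 (J4H96.OC.n1_map hN (fun v => if v ∈ Xᶜ then v else b)))
  have key : ∀ (V E : Type) [Fintype V] [DecidableEq V] [Fintype E] [DecidableEq E]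
      (K : OrGraph V E), K.Bridgeless → Decomposes (fun K => TwoEven K ∨ SmallMatchings K) K →
      FiveClasses K := by
    intro V E _ _ _ _ K hB h
    exact (R890.FF.classes_iff K.t K.h).1 (main V E K h (R890.FF.n1_of_bridgeless K hB))
  refine ⟨fun V E _ _ _ _ K hB h => ⟨key V E K hB h, fun S hS =>
    cycles_of_classes S K hS (key V E K hB h)⟩, ?_⟩
  classical
  intro V _ G hG h9
  have hs : SmallMatchings (R890.FF.orient G) := by
    refine ⟨0, fun i => i.elim0, id, fun i => i.elim0, fun u v huv Y _ => by
      rw [show u = v from huv], fun M hM => ?_⟩
    by_contra hc
    obtain ⟨M', hM', h9'⟩ := exists_subset_card_eq (show 9 ≤ M.card by omega)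
    set φ := (Finset.equivFinOfCardEq h9').symm with hφ
    obtain ⟨i, j, hij, h⟩ := h9 (fun i => (R890.FF.orient G).t (φ i))
      (fun i => (R890.FF.orient G).h (φ i)) (fun i => (R890.FF.orient_is G).1 _)
    have hne : (φ i).1 ≠ (φ j).1 := fun h2 => hij (φ.injective (Subtype.ext h2))
    obtain ⟨q1, q2, q3, q4⟩ := hM.2 _ (hM' (φ i).2) _ (hM' (φ j).2) hne
    rcases h with h | h | h
    · exact q1 h
    · exact q2 h
    · exact q4 h
  exact cycles_of_classes G (R890.FF.orient G) (R890.FF.orient_is G)
    (key _ _ (R890.FF.orient G) (R890.FF.orient_bridgeless G hG) (.piece _ (Or.inr hs)))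

end Pool.Agent.Results.MP_781dd6_co.MatchingNumberEight
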