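import Pool.Agent.J4H91.OC.Fin
import Pool.Agent.J4H91.OC.Pair

/-!
# The oriented cycle double cover conjecture and groups with trivial arc stabilizers (MP_781dd6_co)

Let `Γ` be a group of automorphisms of a finite simple graph `G` such that only the identity fixes
two adjacent vertices.  If every vertex of positive degree is fixed by some element of `Γ` other than
the identity, or if `Γ` is transitive on the vertices and no vertex has degree one, then the associated
digraph of `G` decomposes into directed cycles of length at least three.

Special cases: all Cayley graphs of finite groups (of degree at least two); all graphs of minimum degree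
at least two with a group of automorphisms that is regular on the arcs (for instance the simple graphs
underlying orientably regular maps), or regular on the edges.

Proof.  A rule which continues each arc that enters a vertex by an arc that leaves it, is compatible
with `Γ` and never puts an arc and its reverse on the same closed walk gives the decomposition.  At a
vertex `v` with nontrivial stabilizer return along the reversed arc, moved by an element `c ≠ 1` of the
stabilizer.  For an edge `vu` with elements `c` and `d` the closed walks are orbits of the product
`dc`, and an arc meets its reverse only if `c` and `d` commute and have coprime orders; then the orbit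
of the edge splits into complete bipartite graphs, and these are covered with the help of a proper
colouring of a circuit.  In the regular case (Cayley graphs) a generator that is not an involution
gives directed cycles, two generators `a`, `b` with `a` an involution give the closed walks
`a, b, a, b, ...`, and these are good unless `a` is a power of `ab`; the remaining cases are three
involutions (three classes of edges, hence a nowhere-zero 4-flow), one involution and an element of even
order (the same), and prisms.
-/

set_option autoImplicit false

namespace Pool.Agent.Results.MP_781dd6_co.TrivialArcStabilizers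

open scoped Classical in
/-- Let `Γ` be a group of automorphisms of the finite simple graph `G` such that only the identity
fixes both ends of an edge.  Assume that

* every vertex with a neighbour is fixed by an element of `Γ` different from the identity, or
* `Γ` is transitive on the vertices, and no vertex has degree one.

Then some finite list of directed cycles (of length at least three) traverses every edge of `G` exactly
once in each direction. -/
theorem result (V : Type) [Finite V] (G : SimpleGraph V) (Γ : Subgroup (G ≃g G))
    (harc : ∀ g ∈ Γ, ∀ u v, G.Adj u v → g u = u → g v = v → g = 1)
    (h : (∀ u v, G.Adj u v → ∃ g ∈ Γ, g ≠ 1 ∧ g u = u) ∨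
      ((∀ u v, ∃ g ∈ Γ, g u = v) ∧ ∀ u v, G.Adj u v → ∃ w, w ≠ v ∧ G.Adj u w)) :
    ∃ C : List (Σ v : V, G.Walk v v),
      (∀ c ∈ C, c.2.IsCycle) ∧
      ∀ u v : V, G.Adj u v →
        (C.map (fun c => (c.2.darts.filter (fun d => decide (d.toProd = (u, v)))).length)).sum = 1 := by
  let _ : MulAction Γ V :=
    { smul := fun g v => g.1 v
      one_smul := fun _ => rfl
      mul_smul := fun _ _ _ => rfl }
  have hfin : Finite Γ := by
    refine Finite.of_injective (fun g : Γ => (fun v => g.1 v : V → V)) ?_
    intro g g' hgg
    apply Subtype.ext
    apply RelIso.ext
    intro v
    exact congrFun hgg v
  have hAut : ∀ (g : Γ) u v, G.Adj u v → G.Adj (g • u) (g • v) := by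
    intro g u v huv
    exact g.1.map_adj_iff.2 huv
  have hfree : ∀ (g : Γ) u v, G.Adj u v → g • u = u → g • v = v → g = 1 := by
    intro g u v huv h1 h2
    exact Subtype.ext (harc g.1 g.2 u v huv h1 h2)
  have hD : Pool.Agent.J4H91.OC.Dec G G.Adj := by
    rcases h with h | ⟨h1, h2⟩
    · refine Pool.Agent.J4H91.OC.stab_dec' (H := Γ) hAut hfree ?_
      intro u v huv
      obtain ⟨g, hg, hg1, hgu⟩ := h u v huv
      exact ⟨⟨g, hg⟩, fun e => hg1 (congrArg Subtype.val e), hgu⟩
    · refine Pool.Agent.J4H91.OC.main (H := Γ) hAut hfree ?_ h2
      intro u v
      obtain ⟨g, hg, hgu⟩ := h1 u v
      exact ⟨⟨g, hg⟩, hgu⟩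
  obtain ⟨C, hC1, hC2⟩ := hD
  refine ⟨C, hC1, ?_⟩
  intro u v huv
  have := hC2 u v
  rw [Pool.Agent.TH505.OCDC.ind_pos huv] at this
  exact this

end Pool.Agent.Results.MP_781dd6_co.TrivialArcStabilizers
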